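import Mathlib

/-!
# MP_b197b4_nt, project K1: dimension theory of affine domains

`HasDim k A s`: the affine domain `A` is integral over a polynomial ring in `s` variables over `k`.
Then every maximal ideal has height `s`, `height P + dim A / P = s` for every prime ideal `P`, and
`s` is the transcendence degree.
-/

set_option autoImplicit false
set_option linter.style.haveILetI false

namespace Pool.Agent.Lib.MP_b197b4_ntD

open Function

universe u v w

/-- `A` is integral over a polynomial ring in `s` variables. -/
def HasDim (k : Type u) [Field k] (A : Type v) [CommRing A] [Algebra k A] (s : ℕ) : Prop :=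
  ∃ g : MvPolynomial (Fin s) k →ₐ[k] A, Injective g ∧ g.toRingHom.IsIntegral

section Integral

variable {R : Type u} {A : Type v} [CommRing R] [CommRing A] [Algebra R A]

/-- Contraction to a subring with integral extension does not lower heights. -/
theorem height_le_height_under [Algebra.IsIntegral R A] (P : Ideal A) [P.IsPrime] :
    P.height ≤ (P.under R).height := by
  have hmono : StrictMono (PrimeSpectrum.comap (algebraMap R A)) := by
    intro I J hIJ
    have h1 : I.asIdeal < J.asIdeal := hIJ
    have := I.isPrime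
    exact Ideal.IsIntegral.comap_lt_comap (R := R) h1
  have h := Order.height_le_height_apply_of_strictMono _ hmono (⟨P, inferInstance⟩ : PrimeSpectrum A)
  rw [← PrimeSpectrum.height_eq_orderHeight, ← PrimeSpectrum.height_eq_orderHeight] at h
  exact h

/-- Heights are preserved by contraction to an integrally closed domain. -/
theorem height_eq_height_under [IsDomain A] [IsNoetherianRing A] [IsNoetherianRing R] [FaithfulSMul R A]
    [IsIntegrallyClosed R] [Algebra.IsIntegral R A] (P : Ideal A) [P.IsPrime] :
    P.height = (P.under R).height := by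
  refine le_antisymm (height_le_height_under P) ?_
  rw [Ideal.height_eq_height_add_of_liesOver_of_hasGoingDown (P.under R) P]
  exact le_self_add

end Integral

/-- Maximal ideals of a polynomial ring over a field. -/
theorem height_maximal_mvPolynomial (k : Type u) [Field k] (s : ℕ) :
    ∀ m : Ideal (MvPolynomial (Fin s) k), m.IsMaximal → m.height = s := by
  induction s with
  | zero =>
    intro m hm
    have h1 : m.height ≤ (0 : ℕ∞) := by
      have h2 := Ideal.height_le_ringKrullDim_of_ne_top hm.ne_top
      rw [MvPolynomial.ringKrullDim_of_isNoetherianRing, ringKrullDim_eq_zero_of_field] at h2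
      simpa using h2
    simpa using h1
  | succ s ih =>
    intro m hm
    let e := (MvPolynomial.finSuccEquiv k s).toRingEquiv
    have h1 : (m.map e).height = m.height := e.height_map m
    have h2 : (m.map e).IsMaximal := Ideal.map_isMaximal_of_equiv e
    have h3 : ((m.map e).comap (Polynomial.C)).IsMaximal :=
      Polynomial.isMaximal_comap_C_of_isJacobsonRing (m.map e)
    have h4 : (m.map e).LiesOver ((m.map e).comap Polynomial.C) := ⟨rfl⟩
    rw [← h1, Polynomial.height_eq_height_add_one ((m.map e).comap Polynomial.C) (m.map e),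
      ih _ h3]
    push_cast
    rfl

section Field

variable {k : Type u} [Field k] {A : Type v} [CommRing A] [Algebra k A]

theorem exists_hasDim (k : Type u) [Field k] (A : Type v) [CommRing A] [Nontrivial A] [Algebra k A]
    [Algebra.FiniteType k A] : ∃ s, HasDim k A s :=
  exists_integral_inj_algHom_of_fg k A

/-- Heights are preserved by contraction to the polynomial ring. -/
theorem height_comap [IsDomain A] [IsNoetherianRing A] {s : ℕ}
    {g : MvPolynomial (Fin s) k →ₐ[k] A} (hg : Injective g) (hi : g.toRingHom.IsIntegral)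
    (P : Ideal A) [P.IsPrime] : P.height = (P.comap g).height := by
  letI := g.toRingHom.toAlgebra
  haveI : Algebra.IsIntegral (MvPolynomial (Fin s) k) A := ⟨hi⟩
  haveI : FaithfulSMul (MvPolynomial (Fin s) k) A :=
    (faithfulSMul_iff_algebraMap_injective _ _).2 hg
  exact height_eq_height_under (R := MvPolynomial (Fin s) k) P

/-- **All maximal ideals of an affine domain have the same height.** -/
theorem HasDim.height [IsDomain A] [IsNoetherianRing A] {s : ℕ} (h : HasDim k A s)
    (m : Ideal A) (hm : m.IsMaximal) : m.height = s := by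
  obtain ⟨g, hg, hi⟩ := h
  haveI := hm.isPrime
  rw [height_comap hg hi m]
  refine height_maximal_mvPolynomial k s _ ?_
  letI := g.toRingHom.toAlgebra
  haveI : Algebra.IsIntegral (MvPolynomial (Fin s) k) A := ⟨hi⟩
  exact Ideal.isMaximal_comap_of_isIntegral_of_isMaximal (R := MvPolynomial (Fin s) k) m

theorem HasDim.ringKrullDim [IsDomain A] [IsNoetherianRing A] {s : ℕ} (h : HasDim k A s) :
    ringKrullDim A = s := by
  refine le_antisymm ?_ ?_
  · refine (ringKrullDim_le_iff_isMaximal_height_le _).2 fun m hm => ?_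
    rw [h.height m hm]
    rfl
  · obtain ⟨m, hm⟩ := Ideal.exists_maximal A
    have h1 := Ideal.height_le_ringKrullDim_of_ne_top hm.ne_top
    rw [h.height m hm] at h1
    exact h1

theorem HasDim.unique [IsDomain A] [IsNoetherianRing A] {s t : ℕ} (h : HasDim k A s)
    (h' : HasDim k A t) : s = t := by
  have h1 := h.ringKrullDim
  rw [h'.ringKrullDim] at h1
  exact_mod_cast h1.symm

/-- Integral extensions have the same dimension. -/
theorem HasDim.of_integral {B : Type w} [CommRing B] [Algebra k B] {s : ℕ} (h : HasDim k A s)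
    (f : A →ₐ[k] B) (hf : Injective f) (hi : f.toRingHom.IsIntegral) : HasDim k B s := by
  obtain ⟨g, hg, hgi⟩ := h
  exact ⟨f.comp g, hf.comp hg, hgi.trans _ _ hi⟩

theorem HasDim.trdeg [IsDomain A] {s : ℕ} (h : HasDim k A s) : Algebra.trdeg k A = s := by
  obtain ⟨g, hg, hi⟩ := h
  letI := g.toRingHom.toAlgebra
  haveI : IsScalarTower k (MvPolynomial (Fin s) k) A :=
    IsScalarTower.of_algebraMap_eq fun c => (g.commutes c).symm
  haveI : Algebra.IsIntegral (MvPolynomial (Fin s) k) A := ⟨hi⟩
  haveI : FaithfulSMul (MvPolynomial (Fin s) k) A :=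
    (faithfulSMul_iff_algebraMap_injective _ _).2 hg
  have h1 := lift_trdeg_add_eq k (MvPolynomial (Fin s) k) A
  rw [trdeg_eq_zero (R := MvPolynomial (Fin s) k) (A := A), MvPolynomial.trdeg_of_isDomain] at h1
  rw [← Cardinal.lift_inj.{v, u}, ← h1]
  simp

/-- The transcendence degree of the field of fractions. -/
theorem HasDim.trdeg_frac [IsDomain A] {s : ℕ} (h : HasDim k A s) (F : Type v) [Field F]
    [Algebra k F] [Algebra A F] [IsScalarTower k A F] [IsFractionRing A F] :
    Algebra.trdeg k F = s := by
  haveI : FaithfulSMul k A := (faithfulSMul_iff_algebraMap_injective _ _).2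
    (algebraMap k A).injective
  haveI : Algebra.IsAlgebraic A F := IsLocalization.isAlgebraic _ (nonZeroDivisors A)
  have h1 := trdeg_add_eq k A (A := F)
  rw [trdeg_eq_zero (R := A) (A := F), add_zero, h.trdeg] at h1
  exact h1.symm

theorem HasDim.of_trdeg [IsDomain A] [Algebra.FiniteType k A] {s : ℕ}
    (h : Algebra.trdeg k A = s) : HasDim k A s := by
  obtain ⟨t, ht⟩ := exists_hasDim k A
  have h1 := ht.trdeg
  rw [h] at h1
  have h2 : s = t := by exact_mod_cast h1
  rwa [h2]

/-- Affine domains with the same field of fractions have the same dimension. -/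
theorem HasDim.of_frac [IsDomain A] {s : ℕ} (h : HasDim k A s) {B : Type v} [CommRing B]
    [IsDomain B] [Algebra k B] [Algebra.FiniteType k B] (F : Type v) [Field F] [Algebra k F]
    [Algebra A F] [IsScalarTower k A F] [IsFractionRing A F] [Algebra B F] [IsScalarTower k B F]
    [IsFractionRing B F] : HasDim k B s := by
  obtain ⟨t, ht⟩ := exists_hasDim k B
  have h1 := ht.trdeg_frac F
  rw [h.trdeg_frac F] at h1
  have h2 : s = t := by exact_mod_cast h1
  rwa [h2]

end Field

section Quotient

variable {k : Type u} [Field k]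

/-- The statement `height P + dim A / P = s`. -/
def Cat (k : Type u) [Field k] {A : Type v} [CommRing A] [Algebra k A] (s : ℕ) (P : Ideal A) :
    Prop :=
  ∃ h t : ℕ, P.height = h ∧ HasDim k (A ⧸ P) t ∧ h + t = s

/-- From the polynomial ring to integral extensions. -/
theorem cat_of_integral {A : Type v} [CommRing A] [IsDomain A] [IsNoetherianRing A] [Algebra k A]
    {s : ℕ} {g : MvPolynomial (Fin s) k →ₐ[k] A} (hg : Injective g)
    (hi : g.toRingHom.IsIntegral) (P : Ideal A) [P.IsPrime]
    (hc : Cat k s (P.comap g)) : Cat k s P := by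
  obtain ⟨h, t, h1, h2, h3⟩ := hc
  refine ⟨h, t, ?_, ?_, h3⟩
  · rw [height_comap hg hi P, h1]
  · let f : (MvPolynomial (Fin s) k ⧸ P.comap g) →ₐ[k] (A ⧸ P) :=
      Ideal.quotientMapₐ P g le_rfl
    refine h2.of_integral f ?_ ?_
    · exact Ideal.quotientMap_injective
    · have h4 : ((Ideal.Quotient.mk P).comp g.toRingHom).IsIntegral :=
        hi.trans _ _ ((Ideal.Quotient.mk P).isIntegral_of_surjective Ideal.Quotient.mk_surjective)
      have h5 : (Ideal.Quotient.mk P).comp g.toRingHom =
          f.toRingHom.comp (Ideal.Quotient.mk (P.comap g)) := by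
        ext <;> rfl
      rw [h5] at h4
      exact RingHom.IsIntegral.tower_top _ _ h4

theorem cat_bot {A : Type v} [CommRing A] [IsDomain A] [Algebra k A] {s : ℕ}
    (hA : HasDim k A s) : Cat k s (⊥ : Ideal A) := by
  refine ⟨0, s, by simp, ?_, by simp⟩
  refine hA.of_integral (Ideal.Quotient.mkₐ k ⊥) ?_ ?_
  · intro a b hab
    have : a - b ∈ (⊥ : Ideal A) := Ideal.Quotient.eq.1 hab
    exact sub_eq_zero.1 this
  · exact RingHom.isIntegral_of_surjective _ Ideal.Quotient.mk_surjective

/-- The step through a principal prime ideal. -/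
theorem cat_step {A : Type u} [CommRing A] [IsDomain A] [Algebra k A] [Algebra.FiniteType k A]
    {s : ℕ} (hA : HasDim k A (s + 1)) {f : A} (hf : Prime f) (P : Ideal A) [P.IsPrime]
    (hfP : f ∈ P)
    (ih : ∀ (B : Type u) [CommRing B] [IsDomain B] [Algebra k B] [Algebra.FiniteType k B],
      HasDim k B s → ∀ Q : Ideal B, Q.IsPrime → Cat k s Q) : Cat k (s + 1) P := by
  haveI : IsNoetherianRing A := Algebra.FiniteType.isNoetherianRing k A
  haveI hq : (Ideal.span {f} : Ideal A).IsPrime := (Ideal.span_singleton_prime hf.ne_zero).2 hf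
  let B := A ⧸ (Ideal.span {f} : Ideal A)
  haveI : IsDomain B := Ideal.Quotient.isDomain _
  haveI : IsNoetherianRing B := Ideal.Quotient.isNoetherianRing _
  -- heights in the quotient
  have key : ∀ Q : Ideal A, Q.IsPrime → f ∈ Q →
      Q.height = (Q.map (Ideal.Quotient.mk (Ideal.span {f}))).height + 1 := by
    intro Q hQ hfQ
    refine le_antisymm (Ideal.height_le_height_add_one_of_mem hfQ) ?_
    have hle : Ideal.span {f} ≤ Q := (Ideal.span_singleton_le_iff_mem _).2 hfQ
    have hprime : (Q.map (Ideal.Quotient.mk (Ideal.span {f}))).IsPrime :=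
      Ideal.map_isPrime_of_surjective Ideal.Quotient.mk_surjective (by rwa [Ideal.mk_ker])
    obtain ⟨l, hl, hlen⟩ := Ideal.exists_ltSeries_length_eq_height
      (Q.map (Ideal.Quotient.mk (Ideal.span {f})))
    let l' : LTSeries (PrimeSpectrum A) :=
      l.map (PrimeSpectrum.comap (Ideal.Quotient.mk (Ideal.span {f})))
        (RingHom.strictMono_comap_of_surjective Ideal.Quotient.mk_surjective)
    have hlast : l'.last = ⟨Q, hQ⟩ := by
      apply PrimeSpectrum.ext
      simp only [l', LTSeries.last_map, hl, PrimeSpectrum.comap_asIdeal]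
      rw [Ideal.comap_map_of_surjective _ Ideal.Quotient.mk_surjective, ← RingHom.ker_eq_comap_bot,
        Ideal.mk_ker, sup_eq_left]
      exact hle
    have hhead : (⟨⊥, Ideal.isPrime_bot⟩ : PrimeSpectrum A) < l'.head := by
      change (⊥ : Ideal A) < l'.head.asIdeal
      refine bot_lt_iff_ne_bot.2 ?_
      intro h0
      have h1 : f ∈ l'.head.asIdeal := by
        simp only [l', LTSeries.head_map, PrimeSpectrum.comap_asIdeal, Ideal.mem_comap]
        rw [Ideal.Quotient.eq_zero_iff_mem.2 (Ideal.mem_span_singleton_self f)]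
        exact zero_mem _
      rw [h0] at h1
      exact hf.ne_zero h1
    have hcons : (l'.cons _ hhead).last = ⟨Q, hQ⟩ := by
      rw [RelSeries.last_cons, hlast]
    rw [← hlen, show Q = (⟨Q, hQ⟩ : PrimeSpectrum A).asIdeal from rfl,
      PrimeSpectrum.height_eq_orderHeight, ← hcons]
    have h3 : ((l'.cons _ hhead).length : ℕ∞) = (l.length : ℕ∞) + 1 := by
      simp [l']
    rw [← h3]
    exact Order.length_le_height_last
  -- the dimension of the quotient
  have hB : HasDim k B s := by
    obtain ⟨t, ht⟩ := exists_hasDim k B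
    obtain ⟨M, hM, hfM⟩ := Ideal.exists_le_maximal (Ideal.span {f} : Ideal A) hq.ne_top
    have h1 := key M hM.isPrime (hfM (Ideal.mem_span_singleton_self f))
    rw [hA.height M hM, ht.height _ (Ideal.IsMaximal.map_of_surjective_of_ker_le
      Ideal.Quotient.mk_surjective (by rwa [Ideal.mk_ker]))] at h1
    have h2 : s + 1 = t + 1 := by exact_mod_cast h1
    have h3 : s = t := by omega
    rwa [h3]
  have hle : Ideal.span {f} ≤ P := (Ideal.span_singleton_le_iff_mem _).2 hfP
  haveI hprime : (P.map (Ideal.Quotient.mk (Ideal.span {f}))).IsPrime :=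
    Ideal.map_isPrime_of_surjective Ideal.Quotient.mk_surjective (by rwa [Ideal.mk_ker])
  obtain ⟨h, t, h1, h2, h3⟩ := ih B hB _ hprime
  refine ⟨h + 1, t, ?_, ?_, by omega⟩
  · rw [key P inferInstance hfP, h1]
    rfl
  · let e := DoubleQuot.quotQuotEquivQuotOfLEₐ k hle
    exact h2.of_integral e.toAlgHom e.injective
      (RingHom.isIntegral_of_surjective _ e.surjective)

theorem cat_all (s : ℕ) : ∀ (A : Type u) [CommRing A] [IsDomain A] [Algebra k A]
    [Algebra.FiniteType k A], HasDim k A s → ∀ P : Ideal A, P.IsPrime → Cat k s P := by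
  induction s with
  | zero =>
    intro A _ _ _ _ hA P hP
    haveI : IsNoetherianRing A := Algebra.FiniteType.isNoetherianRing k A
    obtain ⟨m, hm, hPm⟩ := Ideal.exists_le_maximal P hP.ne_top
    have h1 := Ideal.height_mono hPm
    rw [hA.height m hm] at h1
    have h2 : P.height = 0 := by simpa using h1
    have h3 : P = ⊥ := Ideal.height_eq_zero_iff_eq_bot.1 h2
    subst h3
    exact cat_bot hA
  | succ s ih =>
    intro A _ _ _ _ hA P hP
    haveI : IsNoetherianRing A := Algebra.FiniteType.isNoetherianRing k A
    obtain ⟨g, hg, hi⟩ := hA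
    refine cat_of_integral hg hi P ?_
    by_cases h0 : P.comap g = ⊥
    · rw [h0]
      exact cat_bot ⟨AlgHom.id _ _, fun _ _ h => h,
        RingHom.isIntegral_of_surjective _ fun x => ⟨x, rfl⟩⟩
    · haveI : (P.comap g).IsPrime := inferInstance
      obtain ⟨f, hf, hfp⟩ := Ideal.IsPrime.exists_mem_prime_of_ne_bot this h0
      exact cat_step ⟨AlgHom.id _ _, fun _ _ h => h,
        RingHom.isIntegral_of_surjective _ fun x => ⟨x, rfl⟩⟩ hfp _ hf ih

/-- **`height P + dim A / P = dim A` for a prime ideal `P` of an affine domain `A`.** -/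
theorem HasDim.quotient {A : Type v} [CommRing A] [IsDomain A] [Algebra k A]
    [Algebra.FiniteType k A] {s : ℕ} (hA : HasDim k A s) (P : Ideal A) [P.IsPrime] :
    ∃ h t : ℕ, P.height = h ∧ HasDim k (A ⧸ P) t ∧ h + t = s := by
  haveI : IsNoetherianRing A := Algebra.FiniteType.isNoetherianRing k A
  obtain ⟨g, hg, hi⟩ := hA
  refine cat_of_integral hg hi P (cat_all s _ ?_ _ inferInstance)
  exact ⟨AlgHom.id _ _, fun _ _ h => h, RingHom.isIntegral_of_surjective _ fun x => ⟨x, rfl⟩⟩

end Quotient

end Pool.Agent.Lib.MP_b197b4_ntD
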